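import Pool.Agent.Helper62.DSH.StA

/-!
# Project DSH, module RCI: the Ricci identity for component tensors
-/

set_option autoImplicit false

open Set Filter Topology MeasureTheory
open Helper62.LH Helper62.DSH
open scoped ContDiff ENNReal

noncomputable section

namespace Pool.Agent.Helper6.DSH

/-- `rho` as a bilinear map -/
def rhoB (n j : ℕ) : (Fin n → Fin n → ℝ) →ₗ[ℝ] Tn n j →ₗ[ℝ] Tn n j :=
  LinearMap.mk₂ ℝ (fun A t => rho A t)
    (by
      intro A B t
      funext I
      simp only [rho, Pi.add_apply, add_mul, Finset.sum_add_distrib])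
    (by
      intro c A t
      funext I
      simp only [rho, Pi.smul_apply, smul_eq_mul, mul_assoc, Finset.mul_sum])
    (by
      intro A s t
      funext I
      simp only [rho, Pi.add_apply, mul_add, Finset.sum_add_distrib])
    (by
      intro c A t
      funext I
      simp only [rho, Pi.smul_apply, smul_eq_mul, Finset.mul_sum]
      refine Finset.sum_congr rfl fun k _ => Finset.sum_congr rfl fun l _ => ?_
      ring)

/-- `rho` as a continuous bilinear map -/
def rhoC (n j : ℕ) : (Fin n → Fin n → ℝ) →L[ℝ] Tn n j →L[ℝ] Tn n j :=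
  LinearMap.toContinuousLinearMap
    ((LinearMap.toContinuousLinearMap :
      (Tn n j →ₗ[ℝ] Tn n j) ≃ₗ[ℝ] (Tn n j →L[ℝ] Tn n j)).toLinearMap ∘ₗ rhoB n j)

theorem rhoC_apply {n j : ℕ} (A : Fin n → Fin n → ℝ) (t : Tn n j) :
    rhoC n j A t = rho A t := rfl

theorem rho_addA {n j : ℕ} (A B : Fin n → Fin n → ℝ) (t : Tn n j) :
    rho (A + B) t = rho A t + rho B t := by
  rw [← rhoC_apply, ← rhoC_apply, ← rhoC_apply, map_add]; rfl

theorem rho_subA {n j : ℕ} (A B : Fin n → Fin n → ℝ) (t : Tn n j) :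
    rho (A - B) t = rho A t - rho B t := by
  rw [← rhoC_apply, ← rhoC_apply, ← rhoC_apply, map_sub]; rfl

theorem rho_smulA {n j : ℕ} (c : ℝ) (A : Fin n → Fin n → ℝ) (t : Tn n j) :
    rho (c • A) t = c • rho A t := by
  rw [← rhoC_apply, ← rhoC_apply, map_smul]; rfl

theorem rho_sumA {n j : ℕ} {ι : Type} (s : Finset ι) (A : ι → Fin n → Fin n → ℝ) (t : Tn n j) :
    rho (∑ i ∈ s, A i) t = ∑ i ∈ s, rho (A i) t := by
  rw [← rhoC_apply, map_sum, ContinuousLinearMap.sum_apply]; rfl

theorem rho_subt {n j : ℕ} (A : Fin n → Fin n → ℝ) (s t : Tn n j) :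
    rho A (s - t) = rho A s - rho A t := by
  rw [← rhoC_apply, ← rhoC_apply, ← rhoC_apply, map_sub]

/-- product rule for `rho` -/
theorem fderiv_rho {n j : ℕ} (A : E n → Fin n → Fin n → ℝ) (u : E n → Tn n j) (x w : E n)
    (hA : DifferentiableAt ℝ A x) (hu : DifferentiableAt ℝ u x) :
    DifferentiableAt ℝ (fun y => rho (A y) (u y)) x ∧
    fderiv ℝ (fun y => rho (A y) (u y)) x w =
      rho (fderiv ℝ A x w) (u x) + rho (A x) (fderiv ℝ u x w) := by
  have h1 : HasFDerivAt (fun y => rhoC n j (A y)) ((rhoC n j).comp (fderiv ℝ A x)) x :=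
    (rhoC n j).hasFDerivAt.comp x hA.hasFDerivAt
  have h2 := h1.clm_apply hu.hasFDerivAt
  refine ⟨h2.differentiableAt, ?_⟩
  have h3 : fderiv ℝ (fun y => rho (A y) (u y)) x =
      (rhoC n j (A x)).comp (fderiv ℝ u x) +
        ((rhoC n j).comp (fderiv ℝ A x)).flip (u x) := h2.fderiv
  rw [h3]
  simp only [ContinuousLinearMap.add_apply, ContinuousLinearMap.comp_apply,
    ContinuousLinearMap.flip_apply, rhoC_apply]
  exact add_comm _ _

/-- the components of the derivative of a matrix valued function -/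
theorem fderiv_mat {n : ℕ} (A : E n → Fin n → Fin n → ℝ) (x w : E n)
    (hA : ∀ c l, DifferentiableAt ℝ (fun y => A y c l) x) (c l : Fin n) :
    fderiv ℝ A x w c l = fderiv ℝ (fun y => A y c l) x w := by
  have h1 : ∀ c, HasFDerivAt (fun y => A y c)
      (ContinuousLinearMap.pi fun l => fderiv ℝ (fun y => A y c l) x) x := by
    intro c
    exact hasFDerivAt_pi.2 fun l => (hA c l).hasFDerivAt
  have h2 : HasFDerivAt A (ContinuousLinearMap.pi fun c =>
      ContinuousLinearMap.pi fun l => fderiv ℝ (fun y => A y c l) x) x :=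
    hasFDerivAt_pi.2 fun c => h1 c
  rw [h2.fderiv]
  rfl

theorem contDiff_mat {n : ℕ} (A : E n → Fin n → Fin n → ℝ)
    (hA : ∀ c l, ContDiff ℝ ∞ (fun y => A y c l)) : ContDiff ℝ ∞ A := by
  rw [contDiff_pi]
  intro c
  rw [contDiff_pi]
  intro l
  exact hA c l

/-- the derivative of the covariant derivative -/
theorem fderiv_cv {n j : ℕ} {g : E n → Bl n} {Γ : E n → Bm n} {F : Fin n → E n → E n}
    {G : E n → Fin n → Fin n → Fin n → ℝ} (hF : Frm g Γ F G) (u : E n → Tn n j)
    (hu : ContDiff ℝ ∞ u) (x w : E n) (b : Fin n) :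
    fderiv ℝ (fun y => cv F G u y b) x w =
      fderiv ℝ (fderiv ℝ u) x w (F b x) + fderiv ℝ u x (fderiv ℝ (F b) x w) -
      rho (fderiv ℝ (fun y => G y b) x w) (u x) - rho (G x b) (fderiv ℝ u x w) := by
  have hu1 : ContDiff ℝ ∞ (fderiv ℝ u) := (contDiff_infty_iff_fderiv.1 hu).2
  have hdu : DifferentiableAt ℝ (fderiv ℝ u) x := (hu1.differentiable (by simp)) x
  have hFb : DifferentiableAt ℝ (F b) x := ((hF.smF b).differentiable (by simp)) x
  have hGb : DifferentiableAt ℝ (fun y => G y b) x :=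
    ((contDiff_mat (fun y => G y b) (fun c l => hF.smG b c l)).differentiable (by simp)) x
  have hux : DifferentiableAt ℝ u x := (hu.differentiable (by simp)) x
  have h1 : HasFDerivAt (fun y => fderiv ℝ u y (F b y)) _ x :=
    hdu.hasFDerivAt.clm_apply hFb.hasFDerivAt
  obtain ⟨h2, h3⟩ := fderiv_rho (fun y => G y b) u x w hGb hux
  have h4 : fderiv ℝ (fun y => cv F G u y b) x =
      fderiv ℝ (fun y => fderiv ℝ u y (F b y)) x - fderiv ℝ (fun y => rho (G y b) (u y)) x :=
    fderiv_sub h1.differentiableAt h2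
  rw [h4, ContinuousLinearMap.sub_apply, h3, h1.fderiv]
  simp only [ContinuousLinearMap.add_apply, ContinuousLinearMap.comp_apply,
    ContinuousLinearMap.flip_apply]
  abel

theorem hRci (hChr : StChr) (hRho : TRho) (hCrv : TCrv) : TRci := by
  intro n j g Γ F G hg hΓ hF u hu x a b
  obtain ⟨-, hsym, -⟩ := hChr n g Γ hg hΓ
  have hD2 : fderiv ℝ (fderiv ℝ u) x (F a x) (F b x) =
      fderiv ℝ (fderiv ℝ u) x (F b x) (F a x) :=
    (hu.contDiffAt.isSymmSndFDerivAt
      (by
        have h2 : ((2 : ℕ∞) : WithTop ℕ∞) ≤ ((⊤ : ℕ∞) : WithTop ℕ∞) :=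
          WithTop.coe_le_coe.2 le_top
        simpa using h2)).eq _ _
  have hGd : ∀ b c l, DifferentiableAt ℝ (fun y => G y b c l) x := fun b c l =>
    ((hF.smG b c l).differentiable (by simp)) x
  -- the commutator of the frame
  have hV : fderiv ℝ (F b) x (F a x) - fderiv ℝ (F a) x (F b x) =
      ∑ d, (G x a b d - G x b a d) • F d x := by
    have e1 := hF.cn x a b
    have e2 := hF.cn x b a
    rw [hsym x (F b x) (F a x)] at e2
    have e3 : fderiv ℝ (F b) x (F a x) - fderiv ℝ (F a) x (F b x) =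
        (fderiv ℝ (F b) x (F a x) + Γ x (F a x) (F b x)) -
        (fderiv ℝ (F a) x (F b x) + Γ x (F a x) (F b x)) := by abel
    rw [e3, e1, e2, ← Finset.sum_sub_distrib]
    exact Finset.sum_congr rfl fun d _ => (sub_smul _ _ _).symm
  have hDV : fderiv ℝ u x (fderiv ℝ (F b) x (F a x)) - fderiv ℝ u x (fderiv ℝ (F a) x (F b x)) =
      ∑ d, (G x a b d - G x b a d) • fderiv ℝ u x (F d x) := by
    rw [← map_sub, hV, map_sum]
    exact Finset.sum_congr rfl fun d _ => map_smul _ _ _
  have hDd : ∀ d, fderiv ℝ u x (F d x) = cv F G u x d + rho (G x d) (u x) := by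
    intro d
    simp only [cv]
    abel
  -- the matrix of the curvature
  have hR : Rc g Γ F x a b =
      fderiv ℝ (fun y => G y b) x (F a x) - fderiv ℝ (fun y => G y a) x (F b x) -
      (fun c l => ∑ m, (G x a c m * G x b m l - G x b c m * G x a m l)) -
      ∑ d, (G x a b d - G x b a d) • G x d := by
    funext c l
    rw [hCrv n g Γ F G hg hΓ hF x a b c l]
    simp only [Pi.sub_apply, Finset.sum_apply, Pi.smul_apply, smul_eq_mul]
    rw [fderiv_mat (fun y => G y b) x (F a x) (fun c l => hGd b c l) c l,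
      fderiv_mat (fun y => G y a) x (F b x) (fun c l => hGd a c l) c l]
  have hcom := (hRho n j (G x a) (G x b)).1 (u x)
  have hRu : rho (Rc g Γ F x a b) (u x) =
      rho (fderiv ℝ (fun y => G y b) x (F a x)) (u x) -
      rho (fderiv ℝ (fun y => G y a) x (F b x)) (u x) -
      (rho (G x a) (rho (G x b) (u x)) - rho (G x b) (rho (G x a) (u x))) -
      ∑ d, (G x a b d - G x b a d) • rho (G x d) (u x) := by
    rw [hR, rho_subA, rho_subA, rho_subA, hcom, rho_sumA]
    congr 1
    exact Finset.sum_congr rfl fun d _ => rho_smulA _ _ _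
  have hsum : ∑ d, (G x a b d - G x b a d) • fderiv ℝ u x (F d x) =
      (∑ d, (G x a b d - G x b a d) • cv F G u x d) +
      ∑ d, (G x a b d - G x b a d) • rho (G x d) (u x) := by
    rw [← Finset.sum_add_distrib]
    refine Finset.sum_congr rfl fun d _ => ?_
    rw [hDd d, smul_add]
  have hL : ∀ a b : Fin n, cv F G (fun y => cv F G u y b) x a =
      fderiv ℝ (fderiv ℝ u) x (F a x) (F b x) + fderiv ℝ u x (fderiv ℝ (F b) x (F a x)) -
      rho (fderiv ℝ (fun y => G y b) x (F a x)) (u x) - rho (G x b) (fderiv ℝ u x (F a x)) -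
      (rho (G x a) (fderiv ℝ u x (F b x)) - rho (G x a) (rho (G x b) (u x))) := by
    intro a b
    have e : cv F G (fun y => cv F G u y b) x a =
        fderiv ℝ (fun y => cv F G u y b) x (F a x) - rho (G x a) (cv F G u x b) := rfl
    rw [e, fderiv_cv hF u hu x (F a x) b]
    have e2 : cv F G u x b = fderiv ℝ u x (F b x) - rho (G x b) (u x) := rfl
    rw [e2, rho_subt]
  rw [hL a b, hL b a, hRu, hD2]
  have key : fderiv ℝ u x (fderiv ℝ (F b) x (F a x)) =
      fderiv ℝ u x (fderiv ℝ (F a) x (F b x)) +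
      ((∑ d, (G x a b d - G x b a d) • cv F G u x d) +
      ∑ d, (G x a b d - G x b a d) • rho (G x d) (u x)) := by
    rw [← hsum, ← hDV]
    abel
  rw [key]
  abel

end Pool.Agent.Helper6.DSH
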